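import Mathlib

/-!
# Separating partition regularity over polynomials of bounded degree

For all `1 ≤ i < j` there is a pattern that appears in `P_i`, is partition regular over `P_j` and is
not partition regular over `P_i`.
-/

namespace Pool.Agent.Results.MP_b358a5_co.Separation

open MvPolynomial Finset

/-- nonzero polynomials in countably many indeterminates with nonnegative integer coefficients, zero
constant term and degree at most `d` in each indeterminate -/
def P (d : ℕ) : Set (MvPolynomial ℕ ℕ) :=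
  {f | f ≠ 0 ∧ constantCoeff f = 0 ∧ ∀ n, degreeOf n f ≤ d}

/-- `a` is a copy of the pattern `F` in `S` -/
def IsCopy {m k : ℕ} (S : Set (MvPolynomial ℕ ℕ)) (F : Fin k → MvPolynomial (Fin m) ℕ)
    (a : Fin m → MvPolynomial ℕ ℕ) : Prop :=
  (∀ t, a t ∈ S) ∧ ∀ l, bind₁ a (F l) ∈ S

/-- the pattern `F` is partition regular over `S` -/
def PartitionRegular {m k : ℕ} (S : Set (MvPolynomial ℕ ℕ))
    (F : Fin k → MvPolynomial (Fin m) ℕ) : Prop :=
  ∀ (r : ℕ) (c : MvPolynomial ℕ ℕ → Fin r), ∃ a, IsCopy S F a ∧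
    ∀ l l', c (bind₁ a (F l)) = c (bind₁ a (F l'))

lemma exists_deg_pos {f : MvPolynomial ℕ ℕ} (h0 : f ≠ 0) (hc : constantCoeff f = 0) :
    ∃ n, 0 < degreeOf n f := by
  obtain ⟨m, hm⟩ := MvPolynomial.ne_zero_iff.1 h0
  have hm' : m ∈ f.support := MvPolynomial.mem_support_iff.2 hm
  have hm0 : m ≠ 0 := by
    rintro rfl
    exact hm hc
  obtain ⟨n, hn⟩ := Finsupp.ne_iff.1 hm0
  refine ⟨n, lt_of_lt_of_le (Nat.pos_of_ne_zero hn) (monomial_le_degreeOf n hm')⟩

/-! ### `i ≥ 2` -/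

/-- the pattern `x^i y, x y^i` -/
noncomputable def FA (i : ℕ) : Fin 2 → MvPolynomial (Fin 2) ℕ :=
  ![X 0 ^ i * X 1, X 0 * X 1 ^ i]

lemma FA_val0 (i : ℕ) (a : Fin 2 → MvPolynomial ℕ ℕ) : bind₁ a (FA i 0) = a 0 ^ i * a 1 := by
  simp [FA]

lemma FA_val1 (i : ℕ) (a : Fin 2 → MvPolynomial ℕ ℕ) : bind₁ a (FA i 1) = a 0 * a 1 ^ i := by
  simp [FA]

lemma FA_good (i : ℕ) (l : Fin 2) : constantCoeff (FA i l) = 0 := by
  fin_cases l
  · simp [FA]
  · simp [FA]

lemma X_ne (n : ℕ) : (X n : MvPolynomial ℕ ℕ) ≠ 0 := MvPolynomial.X_ne_zero n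

lemma X_mem (n d : ℕ) (hd : 1 ≤ d) : (X n : MvPolynomial ℕ ℕ) ∈ P d := by
  classical
  refine ⟨X_ne n, by simp, fun t => ?_⟩
  rw [degreeOf_X]
  split_ifs <;> omega

lemma FA_appears (i : ℕ) (hi : 2 ≤ i) : ∃ a, IsCopy (P i) (FA i) a := by
  classical
  refine ⟨![X 0, X 1], ?_, ?_⟩
  · intro t
    fin_cases t
    · exact X_mem 0 i (by omega)
    · exact X_mem 1 i (by omega)
  · intro l
    fin_cases l
    · change bind₁ _ (FA i 0) ∈ _
      rw [FA_val0]
      simp only [Matrix.cons_val_zero, Matrix.cons_val_one]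
      refine ⟨mul_ne_zero (pow_ne_zero _ (X_ne 0)) (X_ne 1), by simp, fun n => ?_⟩
      rw [degreeOf_mul_eq (pow_ne_zero _ (X_ne 0)) (X_ne 1), degreeOf_pow_eq _ _ _ (X_ne 0),
        degreeOf_X, degreeOf_X]
      split_ifs with h1 h2 h2
      · omega
      · omega
      · omega
      · omega
    · change bind₁ _ (FA i 1) ∈ _
      rw [FA_val1]
      simp only [Matrix.cons_val_zero, Matrix.cons_val_one]
      refine ⟨mul_ne_zero (X_ne 0) (pow_ne_zero _ (X_ne 1)), by simp, fun n => ?_⟩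
      rw [degreeOf_mul_eq (X_ne 0) (pow_ne_zero _ (X_ne 1)), degreeOf_pow_eq _ _ _ (X_ne 1),
        degreeOf_X, degreeOf_X]
      split_ifs with h1 h2 h2
      · omega
      · omega
      · omega
      · omega

lemma FA_pr (i j : ℕ) (hij : i < j) : PartitionRegular (P j) (FA i) := by
  classical
  intro r c
  have hv0 : bind₁ (fun _ => (X 0 : MvPolynomial ℕ ℕ)) (FA i 0) = X 0 ^ (i + 1) := by
    rw [FA_val0, pow_succ]
  have hv1 : bind₁ (fun _ => (X 0 : MvPolynomial ℕ ℕ)) (FA i 1) = X 0 ^ (i + 1) := by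
    rw [FA_val1, pow_succ']
  have hv : ∀ l, bind₁ (fun _ => (X 0 : MvPolynomial ℕ ℕ)) (FA i l) = X 0 ^ (i + 1) := by
    intro l
    fin_cases l
    · exact hv0
    · exact hv1
  refine ⟨fun _ => X 0, ⟨fun _ => X_mem 0 j (by omega), fun l => ?_⟩, fun l l' => by rw [hv, hv]⟩
  rw [hv]
  refine ⟨pow_ne_zero _ (X_ne 0), by simp, fun n => ?_⟩
  rw [degreeOf_pow_eq _ _ _ (X_ne 0), degreeOf_X]
  split_ifs
  · omega
  · omega

open Classical in
/-- colour by the degree in the least indeterminate that occurs -/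
noncomputable def cA (i : ℕ) (f : MvPolynomial ℕ ℕ) : Fin 2 :=
  if h : ∃ n, 0 < degreeOf n f then (if degreeOf (Nat.find h) f = i then 0 else 1) else 0

lemma FA_not_pr (i : ℕ) (hi : 2 ≤ i) : ¬ PartitionRegular (P i) (FA i) := by
  classical
  intro h
  obtain ⟨a, ⟨ha, hv⟩, hc⟩ := h 2 (cA i)
  have hc := hc 0 1
  rw [FA_val0, FA_val1] at hc
  have hu := hv 0
  have hw := hv 1
  rw [FA_val0] at hu
  rw [FA_val1] at hw
  have hx := (ha 0).1
  have hy := (ha 1).1
  have du : ∀ n, degreeOf n (a 0 ^ i * a 1) = i * degreeOf n (a 0) + degreeOf n (a 1) := by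
    intro n
    rw [degreeOf_mul_eq (pow_ne_zero _ hx) hy, degreeOf_pow_eq _ _ _ hx]
  have dw : ∀ n, degreeOf n (a 0 * a 1 ^ i) = degreeOf n (a 0) + i * degreeOf n (a 1) := by
    intro n
    rw [degreeOf_mul_eq hx (pow_ne_zero _ hy), degreeOf_pow_eq _ _ _ hy]
  have bu : ∀ n, i * degreeOf n (a 0) + degreeOf n (a 1) ≤ i := fun n => by
    rw [← du]; exact hu.2.2 n
  have bw : ∀ n, degreeOf n (a 0) + i * degreeOf n (a 1) ≤ i := fun n => by
    rw [← dw]; exact hw.2.2 n
  have hiff : ∀ n, 0 < degreeOf n (a 0 ^ i * a 1) ↔ 0 < degreeOf n (a 0 * a 1 ^ i) := by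
    intro n
    rw [du, dw]
    constructor
    · intro h
      rcases Nat.eq_zero_or_pos (degreeOf n (a 0)) with h0 | h0
      · rw [h0] at h ⊢
        have : 0 < degreeOf n (a 1) := by omega
        have := Nat.mul_pos (show 0 < i by omega) this
        omega
      · omega
    · intro h
      rcases Nat.eq_zero_or_pos (degreeOf n (a 1)) with h0 | h0
      · rw [h0] at h ⊢
        have : 0 < degreeOf n (a 0) := by omega
        have := Nat.mul_pos (show 0 < i by omega) this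
        omega
      · omega
  have hexu := exists_deg_pos hu.1 hu.2.1
  have hexw := exists_deg_pos hw.1 hw.2.1
  have hfind : Nat.find hexu = Nat.find hexw := by
    apply le_antisymm
    · exact Nat.find_min' _ ((hiff _).2 (Nat.find_spec hexw))
    · exact Nat.find_min' _ ((hiff _).1 (Nat.find_spec hexu))
  unfold cA at hc
  rw [dif_pos hexu, dif_pos hexw, ← hfind] at hc
  set t := Nat.find hexu with ht
  have hpos : 0 < degreeOf t (a 0 ^ i * a 1) := Nat.find_spec hexu
  rw [du] at hpos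
  rw [du, dw] at hc
  have b1 := bu t
  have b2 := bw t
  have hx1 : degreeOf t (a 0) ≤ 1 := by
    by_contra hcon
    have : i * 2 ≤ i * degreeOf t (a 0) := Nat.mul_le_mul_left _ (by omega)
    omega
  have hy1 : degreeOf t (a 1) ≤ 1 := by
    by_contra hcon
    have : i * 2 ≤ i * degreeOf t (a 1) := Nat.mul_le_mul_left _ (by omega)
    omega
  rcases Nat.le_one_iff_eq_zero_or_eq_one.1 hx1 with h0 | h0
  · rw [h0] at hpos hc b1 b2
    have h1 : degreeOf t (a 1) = 1 := by omega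
    rw [h1] at hc
    rw [if_neg (by omega), if_pos (by omega)] at hc
    exact absurd hc (by decide)
  · rw [h0] at hpos hc b1 b2
    have h1 : degreeOf t (a 1) = 0 := by omega
    rw [h1] at hc
    rw [if_pos (by omega), if_neg (by omega)] at hc
    exact absurd hc (by decide)

/-! ### `i = 1` -/

/-- the pattern `3 x y, x y + y z + z x` -/
noncomputable def FB : Fin 2 → MvPolynomial (Fin 3) ℕ :=
  ![3 * X 0 * X 1, X 0 * X 1 + X 1 * X 2 + X 2 * X 0]

lemma FB_val0 (a : Fin 3 → MvPolynomial ℕ ℕ) : bind₁ a (FB 0) = 3 * a 0 * a 1 := by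
  have h : (bind₁ a) (3 : MvPolynomial (Fin 3) ℕ) = 3 := map_ofNat _ 3
  simp [FB, h]

lemma FB_val1 (a : Fin 3 → MvPolynomial ℕ ℕ) :
    bind₁ a (FB 1) = a 0 * a 1 + a 1 * a 2 + a 2 * a 0 := by
  simp [FB]

lemma FB_good (l : Fin 2) : constantCoeff (FB l) = 0 := by
  fin_cases l
  · simp [FB]
  · simp [FB]

/-- supports of products, no cancellation -/
lemma add_mem_support {p q : MvPolynomial ℕ ℕ} {a b : ℕ →₀ ℕ} (ha : a ∈ p.support)
    (hb : b ∈ q.support) : a + b ∈ (p * q).support := by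
  classical
  rw [MvPolynomial.mem_support_iff] at ha hb ⊢
  rw [coeff_mul]
  intro h0
  rw [Finset.sum_eq_zero_iff] at h0
  have := h0 (a, b) (by simp)
  exact (mul_ne_zero ha hb) this

lemma exists_of_mem_support_mul {p q : MvPolynomial ℕ ℕ} {m : ℕ →₀ ℕ} (hm : m ∈ (p * q).support) :
    ∃ a ∈ p.support, ∃ b ∈ q.support, a + b = m := by
  classical
  have := MvPolynomial.support_mul p q hm
  obtain ⟨a, ha, b, hb, h⟩ := Finset.mem_add.1 this
  exact ⟨a, ha, b, hb, h⟩

lemma mem_support_add_left {p q : MvPolynomial ℕ ℕ} {m : ℕ →₀ ℕ} (h : m ∈ p.support) :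
    m ∈ (p + q).support := by
  rw [MvPolynomial.mem_support_iff] at h ⊢
  rw [coeff_add]
  omega

lemma mem_support_add_right {p q : MvPolynomial ℕ ℕ} {m : ℕ →₀ ℕ} (h : m ∈ q.support) :
    m ∈ (p + q).support := by
  rw [MvPolynomial.mem_support_iff] at h ⊢
  rw [coeff_add]
  omega

lemma mem_of_mem_add {p q : MvPolynomial ℕ ℕ} {m : ℕ →₀ ℕ} (h : m ∈ (p + q).support) :
    m ∈ p.support ∨ m ∈ q.support := by
  classical
  exact Finset.mem_union.1 (MvPolynomial.support_add h)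

lemma degreeOf_le_add_left (p q : MvPolynomial ℕ ℕ) (n : ℕ) :
    degreeOf n p ≤ degreeOf n (p + q) := by
  rw [degreeOf_eq_sup]
  apply Finset.sup_le
  intro m hm
  exact monomial_le_degreeOf n (mem_support_add_left hm)

lemma degreeOf_le_add_right (p q : MvPolynomial ℕ ℕ) (n : ℕ) :
    degreeOf n q ≤ degreeOf n (p + q) := by
  rw [add_comm]; exact degreeOf_le_add_left q p n

lemma pos_of_mem {p : MvPolynomial ℕ ℕ} (hc : constantCoeff p = 0) {m : ℕ →₀ ℕ}
    (hm : m ∈ p.support) : ∃ n, 0 < m n := by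
  have hm0 : m ≠ 0 := by
    rintro rfl
    exact (MvPolynomial.mem_support_iff.1 hm) hc
  obtain ⟨n, hn⟩ := Finsupp.ne_iff.1 hm0
  exact ⟨n, Nat.pos_of_ne_zero hn⟩

/-- The main step: one half of the exchange argument. -/
lemma half {x y z g h : MvPolynomial ℕ ℕ} (hx : constantCoeff x = 0) (hy : constantCoeff y = 0)
    (hz : constantCoeff z = 0)
    (hxy : ∀ n, degreeOf n x = 0 ∨ degreeOf n y = 0)
    (hyz : ∀ n, degreeOf n y = 0 ∨ degreeOf n z = 0)
    (hzx : ∀ n, degreeOf n z = 0 ∨ degreeOf n x = 0)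
    (hGH : ∀ n, degreeOf n g = 0 ∨ degreeOf n h = 0)
    (hf : x * y + y * z + z * x = g * h)
    {mx my mz : ℕ →₀ ℕ} (hmx : mx ∈ x.support) (hmy : my ∈ y.support) (hmz : mz ∈ z.support) :
    ((∀ n, 0 < mz n → 0 < degreeOf n g) ∧ ∃ n, 0 < mx n ∧ 0 < degreeOf n g) ∨
    ((∀ n, 0 < mx n → degreeOf n g = 0) ∧ ∃ n, 0 < mz n ∧ degreeOf n g = 0) := by
  have le_deg : ∀ (p : MvPolynomial ℕ ℕ) (m : ℕ →₀ ℕ), m ∈ p.support → ∀ n, m n ≤ degreeOf n p :=
    fun p m hm n => monomial_le_degreeOf n hm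
  have h1 : mx + my ∈ (g * h).support := by
    rw [← hf]
    exact mem_support_add_left (mem_support_add_left (add_mem_support hmx hmy))
  have h2 : my + mz ∈ (g * h).support := by
    rw [← hf]
    exact mem_support_add_left (mem_support_add_right (add_mem_support hmy hmz))
  obtain ⟨g₁, hg₁, h₁, hh₁, e1⟩ := exists_of_mem_support_mul h1
  obtain ⟨g₂, hg₂, h₂, hh₂, e2⟩ := exists_of_mem_support_mul h2
  have h3 : g₁ + h₂ ∈ (x * y + y * z + z * x).support := by
    rw [hf]; exact add_mem_support hg₁ hh₂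
  have E1 : ∀ n, g₁ n + h₁ n = mx n + my n := fun n => by
    have := DFunLike.congr_fun e1 n; simpa using this
  have E2 : ∀ n, g₂ n + h₂ n = my n + mz n := fun n => by
    have := DFunLike.congr_fun e2 n; simpa using this
  -- facts at one coordinate
  have dx := le_deg x mx hmx
  have dy := le_deg y my hmy
  have dz := le_deg z mz hmz
  have dg₁ := le_deg g g₁ hg₁
  have dg₂ := le_deg g g₂ hg₂
  have dh₁ := le_deg h h₁ hh₁
  have dh₂ := le_deg h h₂ hh₂
  have hcase : (∃ a ∈ x.support, ∃ b ∈ y.support, a + b = g₁ + h₂) ∨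
      (∃ a ∈ y.support, ∃ b ∈ z.support, a + b = g₁ + h₂) ∨
      (∃ a ∈ z.support, ∃ b ∈ x.support, a + b = g₁ + h₂) := by
    rcases mem_of_mem_add h3 with h | h
    · rcases mem_of_mem_add h with h | h
      · exact Or.inl (exists_of_mem_support_mul h)
      · exact Or.inr (Or.inl (exists_of_mem_support_mul h))
    · exact Or.inr (Or.inr (exists_of_mem_support_mul h))
  rcases hcase with ⟨a, ha, b, hb, e⟩ | ⟨a, ha, b, hb, e⟩ | ⟨a, ha, b, hb, e⟩
  · -- `x y`
    left
    have E : ∀ n, a n + b n = g₁ n + h₂ n := fun n => by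
      have := DFunLike.congr_fun e n; simpa using this
    have da := le_deg x a ha
    have db := le_deg y b hb
    constructor
    · intro n hn
      by_contra hcon
      have a1 := hyz n; have a2 := hzx n
      have := E n; have := E1 n; have := E2 n
      have := dz n; have := da n; have := db n; have := dg₁ n; have := dg₂ n; have := dy n
      have := dx n
      omega
    · obtain ⟨n, hn⟩ := pos_of_mem hx ha
      refine ⟨n, ?_⟩
      have a1 := hxy n; have a2 := hzx n; have a3 := hGH n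
      have := E n; have := E1 n; have := E2 n
      have := dz n; have := da n; have := db n; have := dg₁ n; have := dg₂ n; have := dy n
      have := dx n; have := dh₁ n; have := dh₂ n
      omega
  · -- `y z`
    right
    have E : ∀ n, a n + b n = g₁ n + h₂ n := fun n => by
      have := DFunLike.congr_fun e n; simpa using this
    have da := le_deg y a ha
    have db := le_deg z b hb
    constructor
    · intro n hn
      by_contra hcon
      have a1 := hxy n; have a2 := hzx n; have a3 := hGH n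
      have := E n; have := E1 n; have := E2 n
      have := dz n; have := da n; have := db n; have := dg₁ n; have := dg₂ n; have := dy n
      have := dx n; have := dh₁ n; have := dh₂ n
      omega
    · obtain ⟨n, hn⟩ := pos_of_mem hz hb
      refine ⟨n, ?_⟩
      have a1 := hyz n; have a2 := hzx n; have a3 := hGH n
      have := E n; have := E1 n; have := E2 n
      have := dz n; have := da n; have := db n; have := dg₁ n; have := dg₂ n; have := dy n
      have := dx n; have := dh₁ n; have := dh₂ n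
      omega
  · -- `z x`: impossible at a variable of `y`
    exfalso
    have E : ∀ n, a n + b n = g₁ n + h₂ n := fun n => by
      have := DFunLike.congr_fun e n; simpa using this
    have da := le_deg z a ha
    have db := le_deg x b hb
    obtain ⟨n, hn⟩ := pos_of_mem hy hmy
    have a1 := hxy n; have a2 := hyz n; have a3 := hGH n
    have := E n; have := E1 n; have := E2 n
    have := dz n; have := da n; have := db n; have := dg₁ n; have := dg₂ n; have := dy n
    have := dx n; have := dh₁ n; have := dh₂ n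
    omega

lemma both {x y z g h : MvPolynomial ℕ ℕ} (hx : constantCoeff x = 0) (hy : constantCoeff y = 0)
    (hz : constantCoeff z = 0)
    (hxy : ∀ n, degreeOf n x = 0 ∨ degreeOf n y = 0)
    (hyz : ∀ n, degreeOf n y = 0 ∨ degreeOf n z = 0)
    (hzx : ∀ n, degreeOf n z = 0 ∨ degreeOf n x = 0)
    (hGH : ∀ n, degreeOf n g = 0 ∨ degreeOf n h = 0)
    (hf : x * y + y * z + z * x = g * h)
    {mx my mz : ℕ →₀ ℕ} (hmx : mx ∈ x.support) (hmy : my ∈ y.support) (hmz : mz ∈ z.support) :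
    ((∀ n, 0 < mx n → 0 < degreeOf n g) ∧ (∀ n, 0 < mz n → 0 < degreeOf n g)) ∨
    ((∀ n, 0 < mx n → degreeOf n g = 0) ∧ (∀ n, 0 < mz n → degreeOf n g = 0)) := by
  have H1 := half hx hy hz hxy hyz hzx hGH hf hmx hmy hmz
  have H2 := half (x := z) (y := y) (z := x) (g := g) (h := h) hz hy hx
    (fun n => (hyz n).symm) (fun n => (hxy n).symm) (fun n => (hzx n).symm) hGH
    (by rw [← hf]; ring) hmz hmy hmx
  rcases H1 with ⟨a1, n1, b1, c1⟩ | ⟨a1, n1, b1, c1⟩
  · rcases H2 with ⟨a2, -⟩ | ⟨a2, -⟩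
    · exact Or.inl ⟨a2, a1⟩
    · exfalso
      obtain ⟨n, hn⟩ := pos_of_mem hz hmz
      have := a1 n hn; have := a2 n hn; omega
  · rcases H2 with ⟨a2, -⟩ | ⟨a2, -⟩
    · exfalso
      obtain ⟨n, hn⟩ := pos_of_mem hx hmx
      have := a1 n hn; have := a2 n hn; omega
    · exact Or.inr ⟨a1, a2⟩

/-- `x y + y z + z x` with `x, y, z` in disjoint variables is not a product -/
lemma not_reducible {x y z g h : MvPolynomial ℕ ℕ} (hx0 : x ≠ 0) (hy0 : y ≠ 0) (hz0 : z ≠ 0)
    (hx : constantCoeff x = 0) (hy : constantCoeff y = 0) (hz : constantCoeff z = 0)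
    (hxy : ∀ n, degreeOf n x = 0 ∨ degreeOf n y = 0)
    (hyz : ∀ n, degreeOf n y = 0 ∨ degreeOf n z = 0)
    (hzx : ∀ n, degreeOf n z = 0 ∨ degreeOf n x = 0)
    (hg0 : g ≠ 0) (hh0 : h ≠ 0) (hgc : constantCoeff g = 0) (hhc : constantCoeff h = 0)
    (hGH : ∀ n, degreeOf n g = 0 ∨ degreeOf n h = 0) :
    x * y + y * z + z * x ≠ g * h := by
  intro hf
  obtain ⟨mx, hmx'⟩ := MvPolynomial.ne_zero_iff.1 hx0
  obtain ⟨my, hmy'⟩ := MvPolynomial.ne_zero_iff.1 hy0
  obtain ⟨mz, hmz'⟩ := MvPolynomial.ne_zero_iff.1 hz0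
  have hmx := MvPolynomial.mem_support_iff.2 hmx'
  have hmy := MvPolynomial.mem_support_iff.2 hmy'
  have hmz := MvPolynomial.mem_support_iff.2 hmz'
  obtain ⟨mg, hmg'⟩ := MvPolynomial.ne_zero_iff.1 hg0
  obtain ⟨mh, hmh'⟩ := MvPolynomial.ne_zero_iff.1 hh0
  have hmg := MvPolynomial.mem_support_iff.2 hmg'
  have hmh := MvPolynomial.mem_support_iff.2 hmh'
  -- pairs
  have Pxz : ∀ a ∈ x.support, ∀ c ∈ z.support,
      ((∀ n, 0 < a n → 0 < degreeOf n g) ∧ (∀ n, 0 < c n → 0 < degreeOf n g)) ∨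
      ((∀ n, 0 < a n → degreeOf n g = 0) ∧ (∀ n, 0 < c n → degreeOf n g = 0)) :=
    fun a ha c hc => both hx hy hz hxy hyz hzx hGH hf ha hmy hc
  have Pyx : ∀ a ∈ y.support, ∀ c ∈ x.support,
      ((∀ n, 0 < a n → 0 < degreeOf n g) ∧ (∀ n, 0 < c n → 0 < degreeOf n g)) ∨
      ((∀ n, 0 < a n → degreeOf n g = 0) ∧ (∀ n, 0 < c n → degreeOf n g = 0)) :=
    fun a ha c hc => both (x := y) (y := z) (z := x) hy hz hx hyz hzx hxy hGH
      (by rw [← hf]; ring) ha hmz hc
  -- dichotomy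
  have key : ∀ (Q : (ℕ →₀ ℕ) → Prop), (∀ a ∈ x.support, ∀ c ∈ z.support, (Q a ↔ Q c)) →
      (∀ a ∈ y.support, ∀ c ∈ x.support, (Q a ↔ Q c)) → Q mx →
      (∀ a ∈ x.support, Q a) ∧ (∀ a ∈ y.support, Q a) ∧ (∀ a ∈ z.support, Q a) := by
    intro Q h1 h2 hq
    have hz' : ∀ c ∈ z.support, Q c := fun c hc => (h1 mx hmx c hc).1 hq
    have hx' : ∀ a ∈ x.support, Q a := fun a ha => (h1 a ha mz hmz).2 (hz' mz hmz)
    exact ⟨hx', fun a ha => (h2 a ha mx hmx).2 hq, hz'⟩
  -- the two alternatives exclude each other on nonzero monomials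
  have excl : ∀ m : ℕ →₀ ℕ, (∃ n, 0 < m n) → (∀ n, 0 < m n → 0 < degreeOf n g) →
      (∀ n, 0 < m n → degreeOf n g = 0) → False := by
    rintro m ⟨n, hn⟩ h1 h2
    have := h1 n hn; have := h2 n hn; omega
  let QG : (ℕ →₀ ℕ) → Prop := fun m => ∀ n, 0 < m n → 0 < degreeOf n g
  let QH : (ℕ →₀ ℕ) → Prop := fun m => ∀ n, 0 < m n → degreeOf n g = 0
  have hall : ((∀ a ∈ x.support, QG a) ∧ (∀ a ∈ y.support, QG a) ∧ (∀ a ∈ z.support, QG a)) ∨
      ((∀ a ∈ x.support, QH a) ∧ (∀ a ∈ y.support, QH a) ∧ (∀ a ∈ z.support, QH a)) := by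
    have iffG : ∀ {p q : MvPolynomial ℕ ℕ}, constantCoeff p = 0 → constantCoeff q = 0 →
        (∀ a ∈ p.support, ∀ c ∈ q.support, (QG a ∧ QG c) ∨ (QH a ∧ QH c)) →
        ∀ a ∈ p.support, ∀ c ∈ q.support, (QG a ↔ QG c) := by
      intro p q hp hq H a ha c hc
      rcases H a ha c hc with ⟨u, w⟩ | ⟨u, w⟩
      · exact ⟨fun _ => w, fun _ => u⟩
      · exact ⟨fun s => (excl a (pos_of_mem hp ha) s u).elim,
          fun s => (excl c (pos_of_mem hq hc) s w).elim⟩
    have iffH : ∀ {p q : MvPolynomial ℕ ℕ}, constantCoeff p = 0 → constantCoeff q = 0 →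
        (∀ a ∈ p.support, ∀ c ∈ q.support, (QG a ∧ QG c) ∨ (QH a ∧ QH c)) →
        ∀ a ∈ p.support, ∀ c ∈ q.support, (QH a ↔ QH c) := by
      intro p q hp hq H a ha c hc
      rcases H a ha c hc with ⟨u, w⟩ | ⟨u, w⟩
      · exact ⟨fun s => (excl a (pos_of_mem hp ha) u s).elim,
          fun s => (excl c (pos_of_mem hq hc) w s).elim⟩
      · exact ⟨fun _ => w, fun _ => u⟩
    rcases Pxz mx hmx mz hmz with ⟨u, -⟩ | ⟨u, -⟩
    · exact Or.inl (key QG (iffG hx hz Pxz) (iffG hy hx Pyx) u)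
    · exact Or.inr (key QH (iffH hx hz Pxz) (iffH hy hx Pyx) u)
  -- a monomial of `g h`
  have hm : mg + mh ∈ (x * y + y * z + z * x).support := by
    rw [hf]; exact add_mem_support hmg hmh
  have hsplit : ∀ (Q : (ℕ →₀ ℕ) → Prop), (∀ a c, Q a → Q c → Q (a + c)) →
      ((∀ a ∈ x.support, Q a) ∧ (∀ a ∈ y.support, Q a) ∧ (∀ a ∈ z.support, Q a)) → Q (mg + mh) := by
    intro Q hadd ⟨q1, q2, q3⟩
    rcases mem_of_mem_add hm with h | h
    · rcases mem_of_mem_add h with h | h
      · obtain ⟨a, ha, c, hc, e⟩ := exists_of_mem_support_mul h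
        rw [← e]; exact hadd _ _ (q1 a ha) (q2 c hc)
      · obtain ⟨a, ha, c, hc, e⟩ := exists_of_mem_support_mul h
        rw [← e]; exact hadd _ _ (q2 a ha) (q3 c hc)
    · obtain ⟨a, ha, c, hc, e⟩ := exists_of_mem_support_mul h
      rw [← e]; exact hadd _ _ (q3 a ha) (q1 c hc)
  rcases hall with hG | hH
  · have h1 := hsplit QG (by
      intro a c ha hc n hn
      rw [Finsupp.add_apply] at hn
      rcases Nat.eq_zero_or_pos (a n) with h | h
      · exact hc n (by omega)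
      · exact ha n h) hG
    obtain ⟨n, hn⟩ := pos_of_mem hhc hmh
    have h2 := h1 n (by rw [Finsupp.add_apply]; omega)
    have h3 : mh n ≤ degreeOf n h := monomial_le_degreeOf n hmh
    have := hGH n
    omega
  · have h1 := hsplit QH (by
      intro a c ha hc n hn
      rw [Finsupp.add_apply] at hn
      rcases Nat.eq_zero_or_pos (a n) with h | h
      · exact hc n (by omega)
      · exact ha n h) hH
    obtain ⟨n, hn⟩ := pos_of_mem hgc hmg
    have h2 := h1 n (by rw [Finsupp.add_apply]; omega)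
    have h3 : mg n ≤ degreeOf n g := monomial_le_degreeOf n hmg
    omega

open Classical in
/-- colour by reducibility in `P 1` -/
noncomputable def cB (f : MvPolynomial ℕ ℕ) : Fin 2 :=
  if ∃ g ∈ P 1, ∃ h ∈ P 1, f = g * h then 0 else 1

lemma three_mul {x : MvPolynomial ℕ ℕ} (hx : x ∈ P 1) : 3 * x ∈ P 1 := by
  have h3 : (3 : MvPolynomial ℕ ℕ) = C 3 := by simp
  have h3' : (3 : MvPolynomial ℕ ℕ) ≠ 0 := by
    rw [h3]; simp
  refine ⟨mul_ne_zero h3' hx.1, ?_, ?_⟩
  · rw [map_mul, hx.2.1, mul_zero]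
  · intro n
    rw [degreeOf_mul_eq h3' hx.1, h3, degreeOf_C, zero_add]
    exact hx.2.2 n

lemma FB_not_pr : ¬ PartitionRegular (P 1) FB := by
  intro H
  obtain ⟨a, ⟨ha, hv⟩, hc⟩ := H 2 cB
  have hc := hc 0 1
  rw [FB_val0, FB_val1] at hc
  have hu := hv 0
  have hw := hv 1
  rw [FB_val0] at hu
  rw [FB_val1] at hw
  have hred : cB (3 * a 0 * a 1) = 0 := by
    unfold cB
    rw [if_pos]
    exact ⟨3 * a 0, three_mul (ha 0), a 1, ha 1, rfl⟩
  have hx := ha 0
  have hy := ha 1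
  have hz := ha 2
  have disj : ∀ {p q : MvPolynomial ℕ ℕ}, p ≠ 0 → q ≠ 0 →
      (∀ n, degreeOf n (p * q) ≤ degreeOf n (a 0 * a 1 + a 1 * a 2 + a 2 * a 0)) →
      ∀ n, degreeOf n p = 0 ∨ degreeOf n q = 0 := by
    intro p q hp hq h n
    have h1 := h n
    have h2 := hw.2.2 n
    rw [degreeOf_mul_eq hp hq] at h1
    omega
  have hxy := disj hx.1 hy.1 (fun n => (degreeOf_le_add_left _ _ n).trans (degreeOf_le_add_left _ _ n))
  have hyz := disj hy.1 hz.1 (fun n => (degreeOf_le_add_right _ _ n).trans (degreeOf_le_add_left _ _ n))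
  have hzx := disj hz.1 hx.1 (fun n => degreeOf_le_add_right _ _ n)
  have hirr : cB (a 0 * a 1 + a 1 * a 2 + a 2 * a 0) = 1 := by
    unfold cB
    rw [if_neg]
    rintro ⟨g, hg, h, hh, hf⟩
    have hGH : ∀ n, degreeOf n g = 0 ∨ degreeOf n h = 0 := by
      intro n
      have h1 := hw.2.2 n
      rw [hf, degreeOf_mul_eq hg.1 hh.1] at h1
      omega
    exact not_reducible hx.1 hy.1 hz.1 hx.2.1 hy.2.1 hz.2.1 hxy hyz hzx hg.1 hh.1 hg.2.1 hh.2.1 hGH hf
  rw [hred, hirr] at hc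
  exact absurd hc (by decide)

lemma FB_appears : ∃ a, IsCopy (P 1) FB a := by
  classical
  have hXX : ∀ s t : ℕ, s ≠ t → ∀ n, degreeOf n ((X s : MvPolynomial ℕ ℕ) * X t) ≤ 1 := by
    intro s t hst n
    rw [degreeOf_mul_eq (X_ne s) (X_ne t), degreeOf_X, degreeOf_X]
    split_ifs with h1 h2
    · exact absurd (h1.symm.trans h2) hst
    · omega
    · omega
    · omega
  refine ⟨![X 0, X 1, X 2], ?_, ?_⟩
  · intro t
    fin_cases t
    · exact X_mem 0 1 le_rfl
    · exact X_mem 1 1 le_rfl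
    · exact X_mem 2 1 le_rfl
  · intro l
    fin_cases l
    · change bind₁ _ (FB 0) ∈ _
      rw [FB_val0]
      simp only [Matrix.cons_val_zero, Matrix.cons_val_one]
      rw [mul_assoc]
      apply three_mul
      exact ⟨mul_ne_zero (X_ne 0) (X_ne 1), by simp, hXX 0 1 (by decide)⟩
    · change bind₁ _ (FB 1) ∈ _
      rw [FB_val1]
      simp only [Matrix.cons_val_zero, Matrix.cons_val_one, Matrix.cons_val]
      refine ⟨?_, by simp, fun n => ?_⟩
      · intro h0
        have h1 := degreeOf_le_add_left ((X 0 : MvPolynomial ℕ ℕ) * X 1) (X 1 * X 2) 0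
        have h2 := degreeOf_le_add_left ((X 0 : MvPolynomial ℕ ℕ) * X 1 + X 1 * X 2) (X 2 * X 0) 0
        rw [h0] at h2
        rw [degreeOf_mul_eq (X_ne 0) (X_ne 1), degreeOf_X, if_pos rfl] at h1
        simp at h2
        omega
      · refine (degreeOf_add_le _ _ _).trans (max_le ?_ (hXX 2 0 (by decide) n))
        exact (degreeOf_add_le _ _ _).trans (max_le (hXX 0 1 (by decide) n) (hXX 1 2 (by decide) n))

lemma FB_pr (j : ℕ) (hj : 1 < j) : PartitionRegular (P j) FB := by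
  classical
  intro r c
  have h3 : (3 : MvPolynomial ℕ ℕ) = C 3 := by simp
  have h3' : (3 : MvPolynomial ℕ ℕ) ≠ 0 := by
    rw [h3]; simp
  have hv0 : bind₁ (fun _ => (X 0 : MvPolynomial ℕ ℕ)) (FB 0) = 3 * X 0 ^ 2 := by
    rw [FB_val0]; ring
  have hv1 : bind₁ (fun _ => (X 0 : MvPolynomial ℕ ℕ)) (FB 1) = 3 * X 0 ^ 2 := by
    rw [FB_val1]; ring
  have hv : ∀ l, bind₁ (fun _ => (X 0 : MvPolynomial ℕ ℕ)) (FB l) = 3 * X 0 ^ 2 := by
    intro l
    fin_cases l
    · exact hv0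
    · exact hv1
  refine ⟨fun _ => X 0, ⟨fun _ => X_mem 0 j (by omega), fun l => ?_⟩, fun l l' => by rw [hv, hv]⟩
  rw [hv]
  refine ⟨mul_ne_zero h3' (pow_ne_zero _ (X_ne 0)), by simp, fun n => ?_⟩
  rw [degreeOf_mul_eq h3' (pow_ne_zero _ (X_ne 0)), degreeOf_pow_eq _ _ _ (X_ne 0), degreeOf_X, h3,
    degreeOf_C]
  split_ifs
  · omega
  · omega

/-- **Main theorem.** For all `1 ≤ i < j` there is a pattern (a finite family of polynomials with
nonnegative integer coefficients and zero constant term) which appears in `P_i`, is partition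
regular over `P_j`, and is not partition regular over `P_i`. -/
theorem result (i j : ℕ) (hi : 1 ≤ i) (hij : i < j) :
    ∃ (m k : ℕ) (F : Fin k → MvPolynomial (Fin m) ℕ), 0 < k ∧ (∀ l, constantCoeff (F l) = 0) ∧
      (∃ a, IsCopy (P i) F a) ∧ PartitionRegular (P j) F ∧ ¬ PartitionRegular (P i) F := by
  rcases Nat.lt_or_ge i 2 with h | h
  · obtain rfl : i = 1 := by omega
    exact ⟨3, 2, FB, by norm_num, FB_good, FB_appears, FB_pr j hij, FB_not_pr⟩
  · exact ⟨2, 2, FA i, by norm_num, FA_good i, FA_appears i h, FA_pr i j hij, FA_not_pr i h⟩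

end Pool.Agent.Results.MP_b358a5_co.Separation
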